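import Pool.Agent.K1H5.PP.Stm

/-! Project PP (helper5), piece QUO: a group which is not perfect has a nontrivial abelian quotient
that is torsion-free or a `p`-group. -/

set_option autoImplicit false

namespace Pool.Agent.K1H89.PP

open Pool.Agent.K1H5.PP

universe u

section
variable {G : Type u} [Group G]

/-- the preimage of a subgroup of the abelianization -/
def pre (B : Subgroup (Abelianization G)) : Subgroup G := B.comap Abelianization.of

instance pre_normal (B : Subgroup (Abelianization G)) : (pre B).Normal := by
  unfold pre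
  infer_instance

theorem mem_pre (B : Subgroup (Abelianization G)) (g : G) :
    g ∈ pre B ↔ Abelianization.of g ∈ B := Iff.rfl

theorem pre_comm (B : Subgroup (Abelianization G)) (a b : G ⧸ pre B) : a * b = b * a := by
  induction a using QuotientGroup.induction_on with
  | H a =>
    induction b using QuotientGroup.induction_on with
    | H b =>
      rw [← QuotientGroup.mk_mul, ← QuotientGroup.mk_mul, QuotientGroup.eq, mem_pre]
      rw [map_mul, map_inv, map_mul, map_mul]
      have : (Abelianization.of a * Abelianization.of b)⁻¹ *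
          (Abelianization.of b * Abelianization.of a) = (1 : Abelianization G) := by
        rw [mul_comm (Abelianization.of b) (Abelianization.of a), inv_mul_cancel]
      rw [this]
      exact B.one_mem

theorem pre_pow (B : Subgroup (Abelianization G)) (g : G) (n : ℕ) :
    ((g : G ⧸ pre B)) ^ n = 1 ↔ (Abelianization.of g) ^ n ∈ B := by
  rw [← QuotientGroup.mk_pow, QuotientGroup.eq_one_iff, mem_pre, map_pow]

theorem pre_one (B : Subgroup (Abelianization G)) (g : G) :
    ((g : G ⧸ pre B)) = 1 ↔ Abelianization.of g ∈ B := by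
  rw [QuotientGroup.eq_one_iff, mem_pre]

/-- the elements of order prime to `p` -/
def cop (A : Type u) [CommGroup A] (p : ℕ) : Subgroup A where
  carrier := {x | ∃ m : ℕ, m.Coprime p ∧ x ^ m = 1}
  one_mem' := ⟨1, Nat.coprime_one_left p, one_pow 1⟩
  mul_mem' := by
    rintro x y ⟨m, hm, hx⟩ ⟨n, hn, hy⟩
    refine ⟨m * n, Nat.Coprime.mul_left hm hn, ?_⟩
    rw [mul_pow, pow_mul, hx, one_pow, mul_comm m n, pow_mul, hy, one_pow, mul_one]
  inv_mem' := by
    rintro x ⟨m, hm, hx⟩
    exact ⟨m, hm, by rw [inv_pow, hx, inv_one]⟩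

theorem mem_cop {A : Type u} [CommGroup A] {p : ℕ} {x : A} :
    x ∈ cop A p ↔ ∃ m : ℕ, m.Coprime p ∧ x ^ m = 1 := Iff.rfl

end

theorem t_QUO : S_QUO.{u} := by
  intro G _ hG
  obtain ⟨g, hg⟩ : ∃ g : G, g ∉ commutator G := by
    by_contra hcon
    push Not at hcon
    exact hG (eq_top_iff.2 fun x _ => hcon x)
  have hg1 : Abelianization.of g ≠ 1 := by
    intro h
    apply hg
    have : g ∈ (Abelianization.of : G →* Abelianization G).ker := h
    rwa [Abelianization.ker_of] at this
  by_cases htor : ∃ x : G, ¬ IsOfFinOrder (Abelianization.of x)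
  · obtain ⟨x, hx⟩ := htor
    refine ⟨pre (CommGroup.torsion (Abelianization G)), pre_normal _, ?_, pre_comm _, Or.inl ?_⟩
    · intro htop
      apply hx
      have h1 : x ∈ pre (CommGroup.torsion (Abelianization G)) := by
        rw [htop]; exact Subgroup.mem_top x
      exact h1
    · intro a n hn ha
      induction a using QuotientGroup.induction_on with
      | H a =>
        rw [pre_pow] at ha
        rw [pre_one]
        have h1 : IsOfFinOrder ((Abelianization.of a) ^ n) := ha
        exact h1.of_pow hn.ne'
  · push Not at htor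
    obtain ⟨p, hp, hpd⟩ := Nat.exists_prime_and_dvd (n := orderOf (Abelianization.of g))
      (fun h => hg1 (orderOf_eq_one_iff.1 h))
    refine ⟨pre (cop (Abelianization G) p), pre_normal _, ?_, pre_comm _, Or.inr ⟨p, hp, ?_⟩⟩
    · intro htop
      have h1 : g ∈ pre (cop (Abelianization G) p) := by
        rw [htop]; exact Subgroup.mem_top g
      rw [mem_pre, mem_cop] at h1
      obtain ⟨m, hm, hgm⟩ := h1
      have h2 : p ∣ m := hpd.trans (orderOf_dvd_of_pow_eq_one hgm)
      have h3 := Nat.Coprime.eq_one_of_dvd hm.symm h2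
      exact hp.one_lt.ne' h3
    · intro a
      induction a using QuotientGroup.induction_on with
      | H a =>
        have hpos : orderOf (Abelianization.of a) ≠ 0 := (htor a).orderOf_pos.ne'
        obtain ⟨k, m, hm, hkm⟩ := Nat.exists_eq_pow_mul_and_not_dvd hpos p hp.one_lt.ne'
        refine ⟨k, ?_⟩
        rw [pre_pow, mem_cop]
        refine ⟨m, ((Nat.Prime.coprime_iff_not_dvd hp).2 hm).symm, ?_⟩
        rw [← pow_mul, ← hkm, pow_orderOf_eq_one]

end Pool.Agent.K1H89.PP
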